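import Pool.Agent.Lib.MP_befe0b_co.CT.Tree

/-!
Boxes of leaves, the share of valid boxes and the share of collisions.
-/

namespace Pool.Agent.Lib.MP_befe0b_co.CT

open Finset

variable {V ι : Type}

/-- a transversal of a box -/
def slice : ∀ k, P (ι → V) k → P ι k → P V k
  | 0, F, i => F i
  | k + 1, F, i => (slice k F.1 i.1, slice k F.2 i.2)

section jensen
variable [Fintype V] [Nonempty V] [Fintype ι] [DecidableEq ι]

lemma box_ge : ∀ (k : ℕ) (h : P V k → ℝ), (∀ s, 0 ≤ h s) →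
    av h ^ Fintype.card (P ι k) ≤ av fun F : P (ι → V) k => ∏ i, h (slice k F i)
  | 0, h, _ => (av_pi (ι := ι) (α := V) h).ge
  | k + 1, h, h0 => by
    have e1 : Fintype.card (P ι (k + 1)) = Fintype.card (P ι k) * Fintype.card (P ι k) :=
      Fintype.card_prod (P ι k) (P ι k)
    have e2 : (av fun F : P (ι → V) (k + 1) => ∏ i, h (slice (k + 1) F i)) =
        av fun F1 : P (ι → V) k => av fun F2 : P (ι → V) k =>
          ∏ j, ∏ i, h (slice k F1 i, slice k F2 j) := by
      refine (av_prod (α := P (ι → V) k) (β := P (ι → V) k) _).trans ?_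
      congr 1; funext F1; congr 1; funext F2
      exact Fintype.prod_prod_type_right
        (fun i : P ι k × P ι k => h (slice k F1 i.1, slice k F2 i.2))
    have e3 : av h = av fun y : P V k => av fun x : P V k => h (x, y) :=
      av_prod' (α := P V k) (β := P V k) h
    have e4 : (av fun F1 : P (ι → V) k => av fun y : P V k => ∏ i, h (slice k F1 i, y)) =
        av fun y : P V k => av fun F1 : P (ι → V) k => ∏ i, h (slice k F1 i, y) :=
      (av_prod (fun q : P (ι → V) k × P V k => ∏ i, h (slice k q.1 i, q.2))).symm.trans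
        (av_prod' _)
    have p1 : ∀ (F1 : P (ι → V) k) (y : P V k), 0 ≤ ∏ i, h (slice k F1 i, y) :=
      fun F1 y => prod_nonneg fun i _ => h0 _
    have p2 : ∀ y : P V k, 0 ≤ av fun x : P V k => h (x, y) := fun y => av_nonneg fun x => h0 _
    rw [e1, e2, e3, pow_mul]
    refine le_trans ?_ (av_mono fun F1 => box_ge k (fun y => ∏ i, h (slice k F1 i, y)) (p1 F1))
    refine le_trans ?_ (av_pow (fun F1 => av_nonneg (p1 F1)) _)
    refine pow_le_pow_left₀ (pow_nonneg (av_nonneg p2) _) ?_ _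
    rw [e4]
    exact (av_pow p2 _).trans (av_mono fun y => box_ge k (fun x => h (x, y)) fun x => h0 _)

end jensen

variable {G : SimpleGraph V}

/-- all transversals are families of leaves -/
def Valid (G : SimpleGraph V) (k : ℕ) (F : P (ι → V) k) : Prop := ∀ i, Ok G k (slice k F i)

lemma valid_ge [Fintype V] [Nonempty V] [Fintype ι] [DecidableEq ι] (k : ℕ) :
    pr (Ok G k) ^ Fintype.card (P ι k) ≤ pr (Valid (ι := ι) G k) := by
  classical
  refine (box_ge k _ fun s => by split_ifs <;> norm_num).trans (av_mono fun F => ?_)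
  by_cases h : Valid G k F
  · rw [if_pos h]
    exact prod_le_one (fun i _ => by split_ifs <;> norm_num) fun i _ => by split_ifs <;> norm_num
  · rw [if_neg h]
    obtain ⟨i, hi⟩ := not_forall.1 h
    exact (prod_eq_zero (mem_univ i) (if_neg hi)).le

lemma Valid.left [Nonempty ι] {k : ℕ} {F : P (ι → V) k × P (ι → V) k}
    (h : Valid G (k + 1) F) : Valid G k F.1 := fun i => by
  obtain ⟨y, p, c, c', -, -, -, -, -, a, -⟩ := h (i, i)
  exact ⟨c, y, a⟩

lemma Valid.right [Nonempty ι] {k : ℕ} {F : P (ι → V) k × P (ι → V) k}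
    (h : Valid G (k + 1) F) : Valid G k F.2 := fun i => by
  obtain ⟨y, p, c, c', -, -, -, -, -, -, a⟩ := h (i, i)
  exact ⟨c', y, a⟩

lemma U_congr {k : ℕ} {y y' : V} {s : P V k} (e : y = y') (a : U G k y s) : U G k y' s := e ▸ a

variable [Nonempty V]

/-- the map of the vertices defined by a box -/
noncomputable def ph (G : SimpleGraph V) : ∀ k, P (ι → V) k → W ι k → V
  | 0, F, i => F i
  | k + 1, F, Sum.inl (Sum.inl w) => ph G k F.1 w
  | k + 1, F, Sum.inl (Sum.inr w) => ph G k F.2 w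
  | k + 1, F, Sum.inr i => val G (k + 1) (slice (k + 1) F i)

lemma ph_top (h : Lin G) : ∀ (k : ℕ) (F : P (ι → V) k) (i : P ι k),
    ph G k F (top k i) = val G k (slice k F i)
  | 0, F, i => (val_eq h (k := 0) (p := F i) rfl).symm
  | _ + 1, _, _ => rfl

lemma ph_adj [Nonempty ι] (h : Lin G) : ∀ (k : ℕ) (F : P (ι → V) k), Valid G k F →
    ∀ a b, E k a b → G.Adj (ph G k F a) (ph G k F b)
  | 0, _, _, _, _, e => e.elim
  | k + 1, F, hF, Sum.inl (Sum.inl a), Sum.inl (Sum.inl b), e => ph_adj h k F.1 hF.left a b e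
  | k + 1, F, hF, Sum.inl (Sum.inr a), Sum.inl (Sum.inr b), e => ph_adj h k F.2 hF.right a b e
  | k + 1, F, hF, Sum.inr i, Sum.inl (Sum.inl b), e => by
    obtain rfl : b = top k i.1 := e
    exact (ph_top h k F.1 i.1).symm ▸ U_adj h (Ok_step h (hF i)).1
  | k + 1, F, hF, Sum.inr i, Sum.inl (Sum.inr b), e => by
    obtain rfl : b = top k i.2 := e
    exact (ph_top h k F.2 i.2).symm ▸ U_adj h (Ok_step h (hF i)).2
  | _ + 1, _, _, Sum.inl (Sum.inl _), Sum.inl (Sum.inr _), e => e.elim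
  | _ + 1, _, _, Sum.inl (Sum.inr _), Sum.inl (Sum.inl _), e => e.elim
  | _ + 1, _, _, Sum.inl (Sum.inl _), Sum.inr _, e => e.elim
  | _ + 1, _, _, Sum.inl (Sum.inr _), Sum.inr _, e => e.elim
  | _ + 1, _, _, Sum.inr _, Sum.inr _, e => e.elim

variable [Fintype V] [Fintype ι] [DecidableEq ι] {t : ℝ}

lemma base (ht : ∀ y, pr (G.Adj y) ≤ t) (i : ι) (g : ({j // j ≠ i} → V) → V) :
    pr (fun F : ι → V => G.Adj (g fun j => F j) (F i)) ≤ t := by
  have := av_equiv (Equiv.funSplitAt i V)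
    (fun q => @ite ℝ (G.Adj (g q.2) q.1) (Classical.propDecidable _) 1 0)
  refine le_trans (le_of_eq this) ?_
  exact pr_left (A := fun q : V × ({j // j ≠ i} → V) => G.Adj (g q.2) q.1) fun b => ht (g b)

lemma hang (h : Lin G) (ht : ∀ y, pr (G.Adj y) ≤ t) : ∀ (k : ℕ) (i : P ι k) (y : V),
    pr (fun F : P (ι → V) k => U G k y (slice k F i)) ≤ t
  | 0, i, y => by
    refine le_trans (pr_mono ?_) (base (ι := ι) ht i fun _ => y)
    rintro F ⟨c, hc, e⟩
    exact (show F i = c from e) ▸ hc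
  | k + 1, i, y =>
    pr_left (α := P (ι → V) k) (β := P (ι → V) k) fun F2 =>
      le_trans (pr_mono fun _ a => (U_step h a).1)
        (hang h ht k i.1 (nx G y (val G k (slice k F2 i.2))))

lemma hang' (h : Lin G) (ht : ∀ y, pr (G.Adj y) ≤ t) : ∀ (k : ℕ) (i j : P ι k), i ≠ j →
    ∀ g : P V k → V, pr (fun F : P (ι → V) k => U G k (g (slice k F j)) (slice k F i)) ≤ t
  | 0, i, j, hij, g => by
    refine le_trans (pr_mono ?_) (base (ι := ι) ht i fun q => g (q ⟨j, hij.symm⟩))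
    rintro F ⟨c, hc, e⟩
    exact (show F i = c from e) ▸ hc
  | k + 1, i, j, hij, g => by
    by_cases h1 : i.1 = j.1
    · have h2 : i.2 ≠ j.2 := fun h2 => hij (Prod.ext h1 h2)
      exact pr_right (α := P (ι → V) k) (β := P (ι → V) k) fun F1 =>
        le_trans (pr_mono fun _ a => (U_step h a).2) (hang' h ht k i.2 j.2 h2
          fun s => nx G (g (slice k F1 j.1, s)) (val G k (slice k F1 i.1)))
    · exact pr_left (α := P (ι → V) k) (β := P (ι → V) k) fun F2 =>
        le_trans (pr_mono fun _ a => (U_step h a).1) (hang' h ht k i.1 j.1 h1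
          fun s => nx G (g (s, slice k F2 j.2)) (val G k (slice k F2 i.2)))

variable [Nonempty ι]

lemma hit (h : Lin G) (ht : ∀ y, pr (G.Adj y) ≤ t) (h1 : ∀ y, ∃ z, G.Adj z y) :
    ∀ (k : ℕ) (w : W ι k) (y : V), pr (fun F => Valid G k F ∧ ph G k F w = y) ≤ t
  | 0, i, y => by
    obtain ⟨z, hz⟩ := h1 y
    refine le_trans (pr_mono ?_) (base (ι := ι) ht i fun _ => z)
    rintro F ⟨-, e⟩
    exact (show F i = y from e) ▸ hz
  | k + 1, Sum.inl (Sum.inl w), y =>
    pr_left (α := P (ι → V) k) (β := P (ι → V) k) fun F2 =>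
      le_trans (pr_mono fun _ a => ⟨a.1.left, a.2⟩) (hit h ht h1 k w y)
  | k + 1, Sum.inl (Sum.inr w), y =>
    pr_right (α := P (ι → V) k) (β := P (ι → V) k) fun F1 =>
      le_trans (pr_mono fun _ a => ⟨a.1.right, a.2⟩) (hit h ht h1 k w y)
  | k + 1, Sum.inr i, y =>
    pr_left (α := P (ι → V) k) (β := P (ι → V) k) fun F2 =>
      le_trans (pr_mono fun _ a => a.2 ▸ (Ok_step h (a.1 i)).1) (hang h ht k i.1 y)

lemma coll (h : Lin G) (ht : ∀ y, pr (G.Adj y) ≤ t) (h1 : ∀ y, ∃ z, G.Adj z y) :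
    ∀ (k : ℕ) (w w' : W ι k), w ≠ w' → pr (fun F => Valid G k F ∧ ph G k F w = ph G k F w') ≤ t
  | 0, i, j, hij => by
    choose z hz using h1
    refine le_trans (pr_mono ?_) (base (ι := ι) ht i fun q => z (q ⟨j, hij.symm⟩))
    rintro F ⟨-, e⟩
    exact (show F i = F j from e) ▸ hz _
  | k + 1, Sum.inl (Sum.inl w), Sum.inl (Sum.inl w'), hw =>
    pr_left (α := P (ι → V) k) (β := P (ι → V) k) fun F2 =>
      le_trans (pr_mono fun _ a => ⟨a.1.left, a.2⟩) (coll h ht h1 k w w' fun e => hw (e ▸ rfl))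
  | k + 1, Sum.inl (Sum.inr w), Sum.inl (Sum.inr w'), hw =>
    pr_right (α := P (ι → V) k) (β := P (ι → V) k) fun F1 =>
      le_trans (pr_mono fun _ a => ⟨a.1.right, a.2⟩) (coll h ht h1 k w w' fun e => hw (e ▸ rfl))
  | k + 1, Sum.inl (Sum.inl w), Sum.inl (Sum.inr w'), _ =>
    pr_left (α := P (ι → V) k) (β := P (ι → V) k) fun F2 =>
      le_trans (pr_mono fun _ a => ⟨a.1.left, a.2⟩) (hit h ht h1 k w (ph G k F2 w'))
  | k + 1, Sum.inl (Sum.inr w), Sum.inl (Sum.inl w'), _ =>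
    pr_right (α := P (ι → V) k) (β := P (ι → V) k) fun F1 =>
      le_trans (pr_mono fun _ a => ⟨a.1.right, a.2⟩) (hit h ht h1 k w (ph G k F1 w'))
  | k + 1, Sum.inr i, Sum.inl (Sum.inl w'), _ =>
    pr_right (α := P (ι → V) k) (β := P (ι → V) k) fun F1 =>
      le_trans (pr_mono fun _ a => a.2 ▸ (Ok_step h (a.1 i)).2) (hang h ht k i.2 (ph G k F1 w'))
  | k + 1, Sum.inr i, Sum.inl (Sum.inr w'), _ =>
    pr_left (α := P (ι → V) k) (β := P (ι → V) k) fun F2 =>
      le_trans (pr_mono fun _ a => a.2 ▸ (Ok_step h (a.1 i)).1) (hang h ht k i.1 (ph G k F2 w'))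
  | k + 1, Sum.inl (Sum.inl w'), Sum.inr i, _ =>
    pr_right (α := P (ι → V) k) (β := P (ι → V) k) fun F1 =>
      le_trans (pr_mono fun _ a => a.2.symm ▸ (Ok_step h (a.1 i)).2)
        (hang h ht k i.2 (ph G k F1 w'))
  | k + 1, Sum.inl (Sum.inr w'), Sum.inr i, _ =>
    pr_left (α := P (ι → V) k) (β := P (ι → V) k) fun F2 =>
      le_trans (pr_mono fun _ a => a.2.symm ▸ (Ok_step h (a.1 i)).1)
        (hang h ht k i.1 (ph G k F2 w'))
  | k + 1, Sum.inr i, Sum.inr j, hw => by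
    by_cases e1 : i.1 = j.1
    · have e2 : i.2 ≠ j.2 := fun e2 => hw (congrArg Sum.inr (Prod.ext e1 e2))
      exact pr_right (α := P (ι → V) k) (β := P (ι → V) k) fun F1 =>
        le_trans (pr_mono fun _ a => U_congr a.2 (Ok_step h (a.1 i)).2) (hang' h ht k i.2 j.2 e2
          fun s => val G (k + 1) (slice k F1 j.1, s))
    · exact pr_left (α := P (ι → V) k) (β := P (ι → V) k) fun F2 =>
        le_trans (pr_mono fun _ a => U_congr a.2 (Ok_step h (a.1 i)).1) (hang' h ht k i.1 j.1 e1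
          fun s => val G (k + 1) (s, slice k F2 j.2))

end Pool.Agent.Lib.MP_befe0b_co.CT
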