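import Mathlib

/-!
Dense graphs without four-cycles.
-/

namespace Pool.Agent.Lib.MP_befe0b_co.CT

open SimpleGraph

/-- two points and two lines of the affine plane -/
lemma C4_core {F : Type} [Field F] {u u' l l' : F × F} (h1 : u.2 = l.1 * u.1 + l.2)
    (h2 : u.2 = l'.1 * u.1 + l'.2) (h3 : u'.2 = l.1 * u'.1 + l.2)
    (h4 : u'.2 = l'.1 * u'.1 + l'.2) : u = u' ∨ l = l' := by
  have h : (u.1 - u'.1) * (l.1 - l'.1) = 0 := by linear_combination h2 - h1 + h3 - h4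
  rcases mul_eq_zero.1 h with h | h
  · left
    have e : u.1 = u'.1 := sub_eq_zero.1 h
    exact Prod.ext e (by rw [h1, h3, e])
  · right
    have e : l.1 = l'.1 := sub_eq_zero.1 h
    exact Prod.ext e (by rw [e] at h1; linear_combination h2 - h1)

/-- the point-line graph, with isolated vertices added -/
def C4_G (F R : Type) [Field F] : SimpleGraph ((F × F) ⊕ (F × F) ⊕ R) where
  Adj v w := (∃ u l : F × F, u.2 = l.1 * u.1 + l.2 ∧ v = .inl u ∧ w = .inr (.inl l)) ∨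
    (∃ u l : F × F, u.2 = l.1 * u.1 + l.2 ∧ w = .inl u ∧ v = .inr (.inl l))
  symm := ⟨fun _ _ h => h.symm⟩
  loopless := ⟨fun v h => by
    rcases h with ⟨u, l, -, rfl, h⟩ | ⟨u, l, -, rfl, h⟩ <;> cases h⟩

lemma C4_unique {F R : Type} [Field F] {v v' w w' : (F × F) ⊕ (F × F) ⊕ R}
    (h1 : (C4_G F R).Adj v w) (h2 : (C4_G F R).Adj v w') (h3 : (C4_G F R).Adj v' w)
    (h4 : (C4_G F R).Adj v' w') : v = v' ∨ w = w' := by
  rcases h1 with ⟨u, l, k1, rfl, rfl⟩ | ⟨u, l, k1, rfl, rfl⟩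
  · rcases h2 with ⟨u2, l', k2, e, rfl⟩ | ⟨_, _, -, -, e⟩
    swap; · cases e
    cases e
    rcases h3 with ⟨u', l3, k3, rfl, e⟩ | ⟨_, _, -, e, -⟩
    swap; · cases e
    cases e
    rcases h4 with ⟨u4, l4, k4, e, e'⟩ | ⟨_, _, -, e, -⟩
    swap; · cases e
    cases e; cases e'
    rcases C4_core k1 k2 k3 k4 with rfl | rfl
    · exact Or.inl rfl
    · exact Or.inr rfl
  · rcases h2 with ⟨_, _, -, e, -⟩ | ⟨u', l2, k2, rfl, e⟩
    · cases e
    cases e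
    rcases h3 with ⟨_, _, -, -, e⟩ | ⟨u3, l', k3, e, rfl⟩
    · cases e
    cases e
    rcases h4 with ⟨_, _, -, e, -⟩ | ⟨u4, l4, k4, e, e'⟩
    · cases e
    cases e; cases e'
    rcases C4_core k1 k3 k2 k4 with rfl | rfl
    · exact Or.inr rfl
    · exact Or.inl rfl

lemma C4_free (F R : Type) [Field F] : (cycleGraph 4).Free (C4_G F R) := by
  rintro ⟨f⟩
  have a01 : (cycleGraph 4).Adj 0 1 := by decide
  have a03 : (cycleGraph 4).Adj 0 3 := by decide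
  have a21 : (cycleGraph 4).Adj 2 1 := by decide
  have a23 : (cycleGraph 4).Adj 2 3 := by decide
  rcases C4_unique (f.toHom.map_adj a01) (f.toHom.map_adj a03) (f.toHom.map_adj a21)
    (f.toHom.map_adj a23) with h | h
  · exact absurd (f.injective h) (by decide)
  · exact absurd (f.injective h) (by decide)

lemma C4_edges (F R : Type) [Field F] [Fintype F] [Fintype (C4_G F R).edgeSet] :
    Fintype.card F ^ 3 ≤ (C4_G F R).edgeFinset.card := by
  classical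
  have hc : (Finset.univ : Finset (F × F × F)).card = Fintype.card F ^ 3 := by
    rw [Finset.card_univ, Fintype.card_prod, Fintype.card_prod]; ring
  rw [← hc]
  refine Finset.card_le_card_of_injOn
    (fun t => s(Sum.inl (t.1, t.2.1 * t.1 + t.2.2), Sum.inr (Sum.inl t.2))) ?_ ?_
  · intro t _
    rw [Finset.mem_coe, mem_edgeFinset, mem_edgeSet]
    exact Or.inl ⟨_, _, rfl, rfl, rfl⟩
  · intro t _ t' _ h
    rcases Sym2.eq_iff.1 h with ⟨h1, h2⟩ | ⟨h1, -⟩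
    · have e1 := Sum.inl_injective h1
      have e2 := Sum.inl_injective (Sum.inr_injective h2)
      exact Prod.ext (Prod.ext_iff.1 e1).1 e2
    · cases h1

lemma C4_prime {n p : ℕ} (hp : p.Prime) (h : 2 * p ^ 2 ≤ n) :
    p ^ 3 ≤ extremalNumber n (cycleGraph 4) := by
  classical
  have : Fact p.Prime := ⟨hp⟩
  have h1 := card_edgeFinset_le_extremalNumber (C4_free (ZMod p) (Fin (n - 2 * p ^ 2)))
  have h2 := C4_edges (ZMod p) (Fin (n - 2 * p ^ 2))
  have h3 : Fintype.card ((ZMod p × ZMod p) ⊕ (ZMod p × ZMod p) ⊕ Fin (n - 2 * p ^ 2)) = n := by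
    simp only [Fintype.card_sum, Fintype.card_prod, ZMod.card, Fintype.card_fin]
    have : p * p = p ^ 2 := (sq p).symm
    omega
  rw [h3] at h1
  rw [ZMod.card] at h2
  exact h2.trans (by convert h1)

theorem c4_lower : ∃ c : ℝ, 0 < c ∧ ∃ n₀ : ℕ, ∀ n ≥ n₀,
    c * (n : ℝ) ^ (3 / 2 : ℝ) ≤ extremalNumber n (cycleGraph 4) := by
  refine ⟨1 / 27, by norm_num, 8, fun n hn => ?_⟩
  have hk : Nat.sqrt (n / 8) ≠ 0 := by
    rw [Ne, Nat.sqrt_eq_zero]; omega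
  obtain ⟨p, hp, h1, h2⟩ := Nat.exists_prime_lt_and_le_two_mul _ hk
  have s1 := Nat.sqrt_le' (n / 8)
  have s2 := Nat.lt_succ_sqrt' (n / 8)
  have a1 : p ^ 2 ≤ (2 * Nat.sqrt (n / 8)) ^ 2 := Nat.pow_le_pow_left h2 2
  have a2 : (Nat.sqrt (n / 8)).succ ^ 2 ≤ p ^ 2 := Nat.pow_le_pow_left h1 2
  rw [mul_pow] at a1
  have b1 : 2 * p ^ 2 ≤ n := by omega
  have b2 : n ≤ (3 * p) ^ 2 := by rw [mul_pow]; omega
  have c1 : ((p : ℝ)) ^ 3 ≤ extremalNumber n (cycleGraph 4) := by exact_mod_cast C4_prime hp b1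
  have c2 : (n : ℝ) ≤ (3 * p : ℝ) ^ 2 := by exact_mod_cast b2
  have c3 : (n : ℝ) ^ (3 / 2 : ℝ) ≤ ((3 * p : ℝ) ^ 2) ^ (3 / 2 : ℝ) :=
    Real.rpow_le_rpow (Nat.cast_nonneg n) c2 (by norm_num)
  have c4 : ((3 * p : ℝ) ^ 2) ^ (3 / 2 : ℝ) = (3 * p : ℝ) ^ 3 := by
    rw [← Real.rpow_natCast, ← Real.rpow_mul (by positivity), ← Real.rpow_natCast]
    norm_num
  rw [c4, mul_pow] at c3
  linarith

end Pool.Agent.Lib.MP_befe0b_co.CT
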