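import Mathlib

/-!
The binary tree of product layers.
-/

namespace Pool.Agent.Lib.MP_befe0b_co.CT

open Finset

/-- iterated squares of a type -/
def P (α : Type) : ℕ → Type
  | 0 => α
  | k + 1 => P α k × P α k

instance P.fintype (α : Type) [Fintype α] : ∀ k, Fintype (P α k)
  | 0 => inferInstanceAs (Fintype α)
  | k + 1 => @instFintypeProd _ _ (P.fintype α k) (P.fintype α k)

instance P.nonempty (α : Type) [Nonempty α] : ∀ k, Nonempty (P α k)
  | 0 => inferInstanceAs (Nonempty α)
  | k + 1 => @instNonemptyProd _ _ (P.nonempty α k) (P.nonempty α k)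

lemma P.card (α : Type) [Fintype α] : ∀ k, Fintype.card (P α k) = Fintype.card α ^ 2 ^ k
  | 0 => by rw [pow_zero, pow_one]; rfl
  | k + 1 => by
    rw [pow_succ, pow_mul, ← P.card α k, sq]
    exact Fintype.card_prod (P α k) (P α k)

/-- vertices of the graph of depth `k` -/
def W (ι : Type) : ℕ → Type
  | 0 => ι
  | k + 1 => (W ι k ⊕ W ι k) ⊕ (P ι k × P ι k)

instance W.fintype (ι : Type) [Fintype ι] : ∀ k, Fintype (W ι k)
  | 0 => inferInstanceAs (Fintype ι)
  | k + 1 => @instFintypeSum _ _ (@instFintypeSum _ _ (W.fintype ι k) (W.fintype ι k))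
      inferInstance

/-- the top layer -/
def top {ι : Type} : ∀ k, P ι k → W ι k
  | 0, i => i
  | _ + 1, i => Sum.inr i

/-- edges, directed from the higher to the lower end -/
def E {ι : Type} : ∀ k, W ι k → W ι k → Prop
  | 0, _, _ => False
  | k + 1, Sum.inl (Sum.inl a), Sum.inl (Sum.inl b) => E k a b
  | k + 1, Sum.inl (Sum.inr a), Sum.inl (Sum.inr b) => E k a b
  | k + 1, Sum.inr i, Sum.inl (Sum.inl b) => b = top k i.1
  | k + 1, Sum.inr i, Sum.inl (Sum.inr b) => b = top k i.2
  | _ + 1, Sum.inl (Sum.inl _), Sum.inl (Sum.inr _) => False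
  | _ + 1, Sum.inl (Sum.inr _), Sum.inl (Sum.inl _) => False
  | _ + 1, Sum.inl _, Sum.inr _ => False
  | _ + 1, Sum.inr _, Sum.inr _ => False

/-- the graph of depth `k` -/
def T (ι : Type) (k : ℕ) : SimpleGraph (W ι k) := SimpleGraph.fromRel (E k)

/-- average over a finite type -/
noncomputable def av {α : Type} [Fintype α] (f : α → ℝ) : ℝ := (∑ a, f a) / Fintype.card α

open Classical in
/-- share of the points with a property -/
noncomputable def pr {α : Type} [Fintype α] (A : α → Prop) : ℝ :=
  av fun a => if A a then 1 else 0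

section av
variable {α β : Type} [Fintype α] [Fintype β]

lemma av_mono {f g : α → ℝ} (h : ∀ a, f a ≤ g a) : av f ≤ av g :=
  div_le_div_of_nonneg_right (sum_le_sum fun a _ => h a) (Nat.cast_nonneg _)

lemma av_nonneg {f : α → ℝ} (h : ∀ a, 0 ≤ f a) : 0 ≤ av f :=
  div_nonneg (sum_nonneg fun a _ => h a) (Nat.cast_nonneg _)

lemma av_const [Nonempty α] (t : ℝ) : av (fun _ : α => t) = t := by
  have : (Fintype.card α : ℝ) ≠ 0 := by exact_mod_cast Fintype.card_ne_zero
  simp only [av, sum_const, card_univ, nsmul_eq_mul]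
  field_simp

lemma av_prod (f : α × β → ℝ) : av f = av fun a => av fun b => f (a, b) := by
  simp only [av, Fintype.sum_prod_type, Fintype.card_prod, ← sum_div, div_div]
  push_cast
  rw [mul_comm]

lemma av_prod' (f : α × β → ℝ) : av f = av fun b => av fun a => f (a, b) := by
  simp only [av, Fintype.sum_prod_type_right, Fintype.card_prod, ← sum_div, div_div]
  push_cast
  rfl

lemma av_equiv (e : α ≃ β) (f : β → ℝ) : av (fun a => f (e a)) = av f := by
  simp only [av, Equiv.sum_comp e f, Fintype.card_congr e]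

lemma av_pow [Nonempty α] {f : α → ℝ} (h : ∀ a, 0 ≤ f a) (m : ℕ) :
    av f ^ m ≤ av fun a => f a ^ m := by
  have c : (0 : ℝ) < Fintype.card α := by exact_mod_cast Fintype.card_pos
  have := Real.pow_arith_mean_le_arith_mean_pow univ (fun _ : α => (Fintype.card α : ℝ)⁻¹) f
    (fun _ _ => by positivity) (by simp [c.ne']) (fun a _ => h a) m
  simpa only [av, ← mul_sum, div_eq_inv_mul] using this

lemma av_sum {γ : Type} (s : Finset γ) (f : γ → α → ℝ) :
    av (fun a => ∑ c ∈ s, f c a) = ∑ c ∈ s, av (f c) := by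
  simp only [av, ← sum_div]
  rw [sum_comm]

lemma av_pi {ι : Type} [Fintype ι] [DecidableEq ι] (h : α → ℝ) :
    av (fun F : ι → α => ∏ i, h (F i)) = av h ^ Fintype.card ι := by
  have := Finset.prod_univ_sum (fun _ : ι => (univ : Finset α)) (fun _ a => h a)
  rw [Fintype.piFinset_univ] at this
  simp only [av, ← this, prod_const, card_univ, Fintype.card_fun, div_pow]
  push_cast
  rfl

lemma pr_mono {A B : α → Prop} (h : ∀ a, A a → B a) : pr A ≤ pr B := by
  refine av_mono fun a => ?_
  by_cases k : A a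
  · simp [k, h a k]
  · simp only [k, if_false]; split_ifs <;> norm_num

lemma pr_left [Nonempty β] {A : α × β → Prop} {t : ℝ} (h : ∀ b, pr (fun a => A (a, b)) ≤ t) :
    pr A ≤ t := by
  unfold pr
  rw [av_prod', ← av_const (α := β) t]
  exact av_mono h

lemma pr_right [Nonempty α] {A : α × β → Prop} {t : ℝ} (h : ∀ a, pr (fun b => A (a, b)) ≤ t) :
    pr A ≤ t := by
  unfold pr
  rw [av_prod, ← av_const (α := α) t]
  exact av_mono h

lemma pr_eq (A : α → Prop) [DecidablePred A] :
    pr A = ((univ.filter A).card : ℝ) / Fintype.card α := by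
  unfold pr av
  rw [card_filter]
  push_cast
  congr 1
  exact sum_congr rfl fun a _ => by by_cases k : A a <;> simp [k]

lemma pr_union {γ : Type} (s : Finset γ) (A : γ → α → Prop) :
    pr (fun a => ∃ c ∈ s, A c a) ≤ ∑ c ∈ s, pr (A c) := by
  classical
  unfold pr
  rw [← av_sum]
  refine av_mono fun a => ?_
  by_cases k : ∃ c ∈ s, A c a
  · rw [if_pos k]
    obtain ⟨c, hc, hA⟩ := k
    refine le_trans ?_ (single_le_sum (f := fun c => if A c a then (1 : ℝ) else 0)
      (fun c _ => by split_ifs <;> norm_num) hc)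
    simp [hA]
  · rw [if_neg k]
    exact sum_nonneg fun c _ => by split_ifs <;> norm_num

end av

end Pool.Agent.Lib.MP_befe0b_co.CT
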