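import Pool.Agent.Lib.MP_befe0b_co.CT.Shape
import Pool.Agent.Lib.MP_80721c_co.Ker.Num

/-!
Dense graphs without the binary tree of product layers; degeneracy.
-/

namespace Pool.Agent.Lib.MP_befe0b_co.CT

open Finset Real SimpleGraph Filter Pool.Agent.Lib.MP_80721c_co.Ker

lemma E_two {ι : Type} : ∀ (k : ℕ) (u : W ι k), ∃ b c, ∀ v, E k u v → v = b ∨ v = c
  | 0, u => ⟨u, u, fun _ h => h.elim⟩
  | k + 1, Sum.inl (Sum.inl a) => by
    obtain ⟨b, c, h⟩ := E_two k a
    refine ⟨shL b, shL c, ?_⟩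
    rintro ((v | v) | v) e
    · exact (h v e).imp (congrArg shL) (congrArg shL)
    · exact e.elim
    · exact e.elim
  | k + 1, Sum.inl (Sum.inr a) => by
    obtain ⟨b, c, h⟩ := E_two k a
    refine ⟨shR b, shR c, ?_⟩
    rintro ((v | v) | v) e
    · exact e.elim
    · exact (h v e).imp (congrArg shR) (congrArg shR)
    · exact e.elim
  | k + 1, Sum.inr i => by
    refine ⟨shL (top k i.1), shR (top k i.2), ?_⟩
    rintro ((v | v) | v) e
    · exact Or.inl (congrArg shL e)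
    · exact Or.inr (congrArg shR e)
    · exact e.elim

theorem T_deg {ι : Type} [Fintype ι] (k : ℕ) : Deg2 (T ι k) := fun S hS => by
  obtain ⟨u, hu, h⟩ := Set.exists_max_image S (shLev k) (Set.toFinite S) hS
  obtain ⟨b, c, e⟩ := E_two k u
  refine ⟨u, hu, (Set.ncard_le_ncard (t := {b, c}) (fun v hv => ?_) (Set.toFinite _)).trans ?_⟩
  · rcases sh_adj.1 hv.1 with a | a
    · exact e v a
    · have := sh_E_lev k v u a
      have := h v hv.2
      omega
  · exact (Set.ncard_insert_le _ _).trans (by simp)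

/-- the two descriptions of the layers agree -/
def eqv (n : ℕ) : ∀ k, XX n k ≃ P (Fin (n + 1)) k
  | 0 => Equiv.refl _
  | k + 1 => Equiv.prodCongr (eqv n k) (eqv n k)

/-- the vertices of the two highest layers -/
def pc2 (n k : ℕ) : (XX n k × Bool) ⊕ (XX n k × XX n k) → CT.W (Fin (n + 1)) (k + 1)
  | Sum.inl (a, false) => shL (top k (eqv n k a))
  | Sum.inl (a, true) => shR (top k (eqv n k a))
  | Sum.inr c => shT (eqv n k c.1, eqv n k c.2)

lemma pc2_inj (n k : ℕ) : Function.Injective (pc2 n k) := by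
  rintro (⟨a, _ | _⟩ | c) (⟨b, _ | _⟩ | d) e
  · rw [(eqv n k).injective (sh_top_inj k (shL_inj e))]
  · exact absurd (Sum.inl_injective e) Sum.inl_ne_inr
  · exact absurd e Sum.inl_ne_inr
  · exact absurd (Sum.inl_injective e) Sum.inr_ne_inl
  · rw [(eqv n k).injective (sh_top_inj k (shR_inj e))]
  · exact absurd e Sum.inl_ne_inr
  · exact absurd e Sum.inr_ne_inl
  · exact absurd e Sum.inr_ne_inl
  · have := Prod.ext_iff.1 (shT_inj e)
    rw [Prod.ext ((eqv n k).injective this.1) ((eqv n k).injective this.2)]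

lemma slow_of {X V : Type} [Fintype X] {m : ℕ} {δ : ℝ} {x : V → Fin m → Bool} {g : Sym2 V → Bool}
    (f : (X × Bool) ⊕ (X × X) → V) (hf : Function.Injective f)
    (h1 : ((Phi fun a => x (f (.inl (a, false)))) + Phi fun a => x (f (.inl (a, true)))) / 2 -
      δ * m ≤ Phi (fun c => x (f (.inr c))))
    (h2 : ∀ c : X × X, g s(f (.inr c), f (.inl (c.1, false))) = true ∧
      g s(f (.inr c), f (.inl (c.2, true))) = true) : Slow X δ x g ⟨f, hf⟩ := ⟨h1, h2⟩

lemma tele {n m : ℕ} {V : Type} [Fintype V] {δ : ℝ} {x : V → Fin m → Bool} {g : Sym2 V → Bool}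
    (k : ℕ) : (∀ j < k, ∀ ψ, ¬ Slow (XX n j) δ x g ψ) → ∀ f : CT.W (Fin (n + 1)) k → V,
      Function.Injective f → (∀ a b, (T (Fin (n + 1)) k).Adj a b → g s(f a, f b) = true) →
      (Phi fun a : XX n k => x (f (top k (eqv n k a)))) + k * (δ * m) ≤ m := by
  induction k with
  | zero =>
    intro _ f _ _
    simpa using Phi_le fun a : XX n 0 => x (f (top 0 (eqv n 0 a)))
  | succ k ih =>
    intro hs f hf hg
    have h1 := ih (fun j hj => hs j (by omega)) (fun a => f (shL a)) (hf.comp shL_inj)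
      fun a b e => hg _ _ (sh_LL.2 e)
    have h2 := ih (fun j hj => hs j (by omega)) (fun a => f (shR a)) (hf.comp shR_inj)
      fun a b e => hg _ _ (sh_RR.2 e)
    have h3 : (Phi fun c : XX n k × XX n k => x (f (pc2 n k (.inr c)))) ≤
        ((Phi fun a => x (f (pc2 n k (.inl (a, false))))) +
          Phi fun a => x (f (pc2 n k (.inl (a, true))))) / 2 - δ * m := by
      by_contra h
      exact hs k (by omega) _ (slow_of (fun j => f (pc2 n k j)) (hf.comp (pc2_inj n k))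
        (not_le.1 h).le fun c => ⟨hg _ _ (sh_TL.2 rfl), hg _ _ (sh_TR.2 rfl)⟩)
    have h6 : (Phi fun a : XX n (k + 1) => x (f (top (k + 1) (eqv n (k + 1) a)))) =
      Phi fun c : XX n k × XX n k => x (f (pc2 n k (.inr c))) := rfl
    simp only [pc2] at h3 h6
    rw [h6]
    push_cast
    linarith

lemma edges_ge {N r : ℕ} (G : SimpleGraph (Fin N)) [DecidableRel G.Adj] (hr : 1 ≤ r)
    (h : Gᶜ.CliqueFree (r + 1)) : (N : ℝ) ^ 2 / r - N ≤ 2 * G.edgeFinset.card := by
  classical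
  have a1 := h.card_edgeFinset_le
  simp only [Fintype.card_fin] at a1
  rw [← card_edgeFinset_turanGraph] at a1
  have a2 := (Nat.mul_le_mul_left (2 * r) a1).trans mul_card_edgeFinset_turanGraph_le
  have a3 : 2 * G.edgeFinset.card + 2 * Gᶜ.edgeFinset.card + N = N * N := by
    rw [← sum_degrees_eq_twice_card_edges, ← sum_degrees_eq_twice_card_edges, ← sum_add_distrib]
    have : ∀ v, G.degree v + Gᶜ.degree v + 1 = N := fun v => by
      have b1 := G.degree_compl v
      have b2 := G.degree_lt_card_verts v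
      rw [Fintype.card_fin] at b1 b2
      omega
    have b := sum_congr rfl fun v (_ : v ∈ (univ : Finset (Fin N))) => this v
    simpa [sum_add_distrib] using b
  have r0 : (0 : ℝ) < r := by exact_mod_cast hr
  have a4 : 2 * (r : ℝ) * Gᶜ.edgeFinset.card ≤ ((r : ℝ) - 1) * (N : ℝ) ^ 2 := by
    have : ((r - 1 : ℕ) : ℝ) = (r : ℝ) - 1 := by rw [Nat.cast_sub hr, Nat.cast_one]
    rw [← this]
    exact_mod_cast a2
  have a5 : 2 * (G.edgeFinset.card : ℝ) + 2 * Gᶜ.edgeFinset.card + N = N * N := by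
    exact_mod_cast a3
  rw [sub_le_iff_le_add, div_le_iff₀ r0]
  nlinarith

theorem lower : ∃ n K : ℕ, ∃ N₀ : ℕ, ∀ N ≥ N₀,
    (N : ℝ) ^ (3 / 2 : ℝ) ≤ extremalNumber N (T (Fin (n + 2)) (K + 2)) := by
  classical
  have hL := LL_pos
  have hg := gp_pos
  obtain ⟨n, hn⟩ := exists_nat_ge (4 * (2 * (2 * LL + gp / 2) + 3) / gp)
  obtain ⟨K, hK⟩ := exists_nat_ge (1 / gp)
  set ν := 2 * LL + gp / 2 with hν
  have ν0 : 0 < ν := by positivity
  obtain ⟨m₁, h⟩ := eventually_atTop.1 ((ev_lin (3 * (2 * ν) * exp (ν / 2)) (3 * 6 * exp (ν / 2))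
    (show 0 < gp / 4 by positivity)).and (eventually_ge_atTop (3 * (K + 2))))
  have ht : Tendsto (fun N : ℕ => ⌈log N / ν⌉₊) atTop atTop :=
    tendsto_nat_ceil_atTop.comp
      ((tendsto_log_atTop.comp tendsto_natCast_atTop_atTop).atTop_div_const ν0)
  obtain ⟨N₀, hN⟩ := eventually_atTop.1 ((ht.eventually_ge_atTop m₁).and (eventually_ge_atTop 1))
  refine ⟨n, K, N₀, fun N hN' => ?_⟩
  obtain ⟨h1, h2⟩ := hN N hN'
  obtain ⟨h3, h4⟩ := h _ h1
  set m := ⌈log N / ν⌉₊ with hm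
  have N1 : (1 : ℝ) ≤ N := by exact_mod_cast h2
  have b1 : (N : ℝ) ≤ exp (ν * m) := by
    rw [← exp_log (show (0 : ℝ) < N by linarith), exp_le_exp, ← div_le_iff₀' ν0]
    exact Nat.le_ceil _
  have b2 : exp (ν * (m - 1) / 2) ≤ √N := by
    refine Real.le_sqrt_of_sq_le ?_
    rw [← exp_nat_mul, ← exp_log (show (0 : ℝ) < N by linarith), exp_le_exp]
    have := (Nat.ceil_lt_add_one (div_nonneg (log_nonneg N1) ν0.le)).le
    rw [← hm, ← sub_le_iff_le_add, le_div_iff₀ ν0] at this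
    push_cast
    linarith
  set r := ⌈(2 * (ν * m) + 5) * exp (LL * m)⌉₊ with hr
  have e1 : 1 ≤ exp (LL * m) := one_le_exp (by positivity)
  have r1 : 1 ≤ r := Nat.one_le_iff_ne_zero.2 (Nat.ceil_pos.2 (by positivity)).ne'
  have r2 : 3 * (r : ℝ) ≤ √N := by
    have c1 := (Nat.ceil_lt_add_one (show 0 ≤ (2 * (ν * m) + 5) * exp (LL * m) by positivity)).le
    have c2 : exp (ν * (m - 1) / 2) * exp (ν / 2) = exp (LL * m) * exp (gp / 4 * m) := by
      rw [← exp_add, ← exp_add, hν]; ring_nf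
    have c3 := mul_le_mul_of_nonneg_left h3 (exp_pos (LL * m)).le
    refine le_trans (le_of_mul_le_mul_right ?_ (exp_pos (ν / 2))) b2
    rw [c2]
    refine le_trans ?_ c3
    have c4 : (r : ℝ) ≤ (2 * (ν * m) + 6) * exp (LL * m) := by linarith
    nlinarith [mul_le_mul_of_nonneg_right c4 (exp_pos (ν / 2)).le]
  obtain ⟨x, g, h8, h9⟩ := ex_good (K := K + 2) (V := Fin N) (n := n + 1) (m := m) (t := r + 1)
    rfl le_rfl (hn.trans (by push_cast; linarith)) (by rwa [Fintype.card_fin]) h4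
    ((Nat.le_ceil _).trans (by push_cast; linarith))
  have f1 : (T (Fin (n + 2)) (K + 2)).Free (Gr g) := fun ⟨φ⟩ => by
    have d1 := tele (K + 2) h8 φ φ.injective fun a b e => (φ.toHom.map_adj e).2
    have d2 := Phi_nonneg fun a : XX (n + 1) (K + 2) => x (φ (top _ (eqv (n + 1) (K + 2) a)))
    have d3 : (1 : ℝ) ≤ m := by exact_mod_cast (show 1 ≤ m by omega)
    rw [div_le_iff₀ hg] at hK
    push_cast at d1
    nlinarith [mul_le_mul_of_nonneg_left hK (show (0 : ℝ) ≤ m by positivity),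
      mul_pos hg (show (0 : ℝ) < m by linarith)]
  have f2 : (Gr g)ᶜ.CliqueFree (r + 1) := fun s hs => h9 s hs.2 fun u hu v hv huv => by
    have := (hs.1 hu hv huv).2
    by_contra k
    exact this ⟨huv, by simpa using k⟩
  have f3 := edges_ge (Gr g) r1 f2
  have f4 := card_edgeFinset_le_extremalNumber f1
  rw [Fintype.card_fin] at f4
  refine le_trans ?_ (Nat.cast_le.2 f4)
  have r0 : (0 : ℝ) < r := by exact_mod_cast r1
  have s1 : 1 ≤ √(N : ℝ) := Real.one_le_sqrt.2 N1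
  have s2 : √(N : ℝ) * √(N : ℝ) = N := Real.mul_self_sqrt (by linarith)
  have s3 : (N : ℝ) ^ (3 / 2 : ℝ) = N * √(N : ℝ) := by
    rw [show (3 / 2 : ℝ) = 1 + 1 / 2 by norm_num, Real.rpow_add (by linarith), Real.rpow_one,
      Real.sqrt_eq_rpow]
  have s4 : 3 * (N * √(N : ℝ)) ≤ (N : ℝ) ^ 2 / r := by
    rw [le_div_iff₀ r0]
    nlinarith [mul_le_mul_of_nonneg_left r2 (show 0 ≤ N * √(N : ℝ) by positivity)]
  rw [s3]
  nlinarith [mul_le_mul_of_nonneg_left s1 (show (0 : ℝ) ≤ N by positivity)]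

end Pool.Agent.Lib.MP_befe0b_co.CT
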