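import Pool.Agent.Lib.MP_befe0b_co.CT.Defs

/-!
The graph is connected, bipartite and has girth six.
-/

namespace Pool.Agent.Lib.MP_befe0b_co.CT

open SimpleGraph

variable {ι : Type}

/-- the left copy -/
def shL {k : ℕ} (a : W ι k) : W ι (k + 1) := Sum.inl (Sum.inl a)

/-- the right copy -/
def shR {k : ℕ} (a : W ι k) : W ι (k + 1) := Sum.inl (Sum.inr a)

/-- the new layer -/
def shT {k : ℕ} (i : P ι k × P ι k) : W ι (k + 1) := Sum.inr i

lemma sh_cases {k : ℕ} (a : W ι (k + 1)) :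
    (∃ x, a = shL x) ∨ (∃ x, a = shR x) ∨ ∃ i, a = shT i := by
  rcases a with (x | x) | i
  · exact Or.inl ⟨x, rfl⟩
  · exact Or.inr (Or.inl ⟨x, rfl⟩)
  · exact Or.inr (Or.inr ⟨i, rfl⟩)

lemma shL_inj {k : ℕ} : Function.Injective (shL : W ι k → W ι (k + 1)) :=
  fun _ _ h => Sum.inl_injective (Sum.inl_injective h)

lemma shR_inj {k : ℕ} : Function.Injective (shR : W ι k → W ι (k + 1)) :=
  fun _ _ h => Sum.inr_injective (Sum.inl_injective h)

lemma shT_inj {k : ℕ} : Function.Injective (shT : P ι k × P ι k → W ι (k + 1)) :=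
  fun _ _ h => Sum.inr_injective h

lemma sh_top_inj : ∀ k, Function.Injective (top k : P ι k → W ι k)
  | 0 => fun _ _ h => h
  | _ + 1 => fun _ _ h => Sum.inr_injective h

/-- the level of a vertex -/
def shLev : ∀ k, W ι k → ℕ
  | 0, _ => 0
  | k + 1, Sum.inl (Sum.inl a) => shLev k a
  | k + 1, Sum.inl (Sum.inr a) => shLev k a
  | k + 1, Sum.inr _ => k + 1

lemma shLev_top : ∀ k (i : P ι k), shLev k (top k i) = k
  | 0, _ => rfl
  | _ + 1, _ => rfl

lemma sh_E_lev : ∀ k (a b : W ι k), E k a b → shLev k a = shLev k b + 1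
  | 0, _, _, h => h.elim
  | k + 1, Sum.inl (Sum.inl a), Sum.inl (Sum.inl b), h => sh_E_lev k a b h
  | k + 1, Sum.inl (Sum.inr a), Sum.inl (Sum.inr b), h => sh_E_lev k a b h
  | k + 1, Sum.inr i, Sum.inl (Sum.inl b), h => by
    have h' : b = top k i.1 := h
    show k + 1 = shLev k b + 1
    rw [h', shLev_top]
  | k + 1, Sum.inr i, Sum.inl (Sum.inr b), h => by
    have h' : b = top k i.2 := h
    show k + 1 = shLev k b + 1
    rw [h', shLev_top]
  | _ + 1, Sum.inl (Sum.inl _), Sum.inl (Sum.inr _), h => h.elim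
  | _ + 1, Sum.inl (Sum.inr _), Sum.inl (Sum.inl _), h => h.elim
  | _ + 1, Sum.inl (Sum.inl _), Sum.inr _, h => h.elim
  | _ + 1, Sum.inl (Sum.inr _), Sum.inr _, h => h.elim
  | _ + 1, Sum.inr _, Sum.inr _, h => h.elim

lemma sh_adj {k : ℕ} {a b : W ι k} : (T ι k).Adj a b ↔ E k a b ∨ E k b a := by
  rw [T, fromRel_adj]
  refine ⟨fun h => h.2, fun h => ⟨?_, h⟩⟩
  rintro rfl
  rcases h with h | h <;> exact absurd (sh_E_lev k a a h) (by omega)

variable {k : ℕ}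

lemma sh_LL {a b : W ι k} : (T ι (k + 1)).Adj (shL a) (shL b) ↔ (T ι k).Adj a b := by
  rw [sh_adj, sh_adj]; rfl

lemma sh_RR {a b : W ι k} : (T ι (k + 1)).Adj (shR a) (shR b) ↔ (T ι k).Adj a b := by
  rw [sh_adj, sh_adj]; rfl

lemma sh_LR {a b : W ι k} : ¬ (T ι (k + 1)).Adj (shL a) (shR b) := by
  rw [sh_adj]; exact fun h => h.elim id id

lemma sh_RL {a b : W ι k} : ¬ (T ι (k + 1)).Adj (shR a) (shL b) :=
  fun h => sh_LR h.symm

lemma sh_TT {i j : P ι k × P ι k} : ¬ (T ι (k + 1)).Adj (shT i) (shT j) := by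
  rw [sh_adj]; exact fun h => h.elim id id

lemma sh_TL {i : P ι k × P ι k} {b : W ι k} :
    (T ι (k + 1)).Adj (shT i) (shL b) ↔ b = top k i.1 := by
  rw [sh_adj]; exact ⟨fun h => h.elim id False.elim, Or.inl⟩

lemma sh_TR {i : P ι k × P ι k} {b : W ι k} :
    (T ι (k + 1)).Adj (shT i) (shR b) ↔ b = top k i.2 := by
  rw [sh_adj]; exact ⟨fun h => h.elim id False.elim, Or.inl⟩

lemma sh_LT {i : P ι k × P ι k} {b : W ι k} :
    (T ι (k + 1)).Adj (shL b) (shT i) ↔ b = top k i.1 := by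
  rw [adj_comm, sh_TL]

lemma sh_RT {i : P ι k × P ι k} {b : W ι k} :
    (T ι (k + 1)).Adj (shR b) (shT i) ↔ b = top k i.2 := by
  rw [adj_comm, sh_TR]

/-- the left copy as a homomorphism -/
def shLh (ι : Type) (k : ℕ) : T ι k →g T ι (k + 1) := ⟨shL, fun h => sh_LL.2 h⟩

/-- the right copy as a homomorphism -/
def shRh (ι : Type) (k : ℕ) : T ι k →g T ι (k + 1) := ⟨shR, fun h => sh_RR.2 h⟩

lemma sh_reach [Nonempty ι] : ∀ k (a : W ι k), ∃ i, (T ι k).Reachable a (top k i)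
  | 0, a => ⟨a, Reachable.refl _⟩
  | k + 1, a => by
    obtain ⟨j⟩ := P.nonempty ι k
    rcases sh_cases a with ⟨x, rfl⟩ | ⟨x, rfl⟩ | ⟨i, rfl⟩
    · obtain ⟨i, h⟩ := sh_reach k x
      exact ⟨(i, j), (h.map (shLh ι k)).trans ((sh_LT (i := (i, j))).2 rfl).reachable⟩
    · obtain ⟨i, h⟩ := sh_reach k x
      exact ⟨(j, i), (h.map (shRh ι k)).trans ((sh_RT (i := (j, i))).2 rfl).reachable⟩
    · exact ⟨i, Reachable.refl _⟩

theorem T_connected [Nonempty ι] (k : ℕ) : (T ι (k + 1)).Connected := by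
  obtain ⟨j⟩ := P.nonempty ι (k + 1)
  have : Nonempty (W ι (k + 1)) := ⟨top _ j⟩
  refine ⟨fun a b => ?_⟩
  obtain ⟨⟨i₁, i₂⟩, ha⟩ := sh_reach (k + 1) a
  obtain ⟨⟨j₁, j₂⟩, hb⟩ := sh_reach (k + 1) b
  have h1 : (T ι (k + 1)).Adj (shT (i₁, i₂)) (shL (top k i₁)) := sh_TL.2 rfl
  have h2 : (T ι (k + 1)).Adj (shL (top k i₁)) (shT (i₁, j₂)) := sh_LT.2 rfl
  have h3 : (T ι (k + 1)).Adj (shT (i₁, j₂)) (shR (top k j₂)) := sh_TR.2 rfl
  have h4 : (T ι (k + 1)).Adj (shR (top k j₂)) (shT (j₁, j₂)) := sh_RT.2 rfl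
  exact ha.trans (h1.reachable.trans (h2.reachable.trans (h3.reachable.trans
    (h4.reachable.trans hb.symm))))

/-- the parity of the level -/
def shCol (ι : Type) (k : ℕ) : (T ι k).Coloring Bool :=
  Coloring.mk (fun v => decide (shLev k v % 2 = 0)) fun {a b} h => by
    rcases sh_adj.1 h with h | h <;>
    · have := sh_E_lev k _ _ h
      rw [Ne, decide_eq_decide]
      omega

theorem T_bipartite (k : ℕ) : (T ι k).IsBipartite := by
  simpa using (shCol ι k).colorable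

lemma sh_common : ∀ k (a b c d : W ι k), (T ι k).Adj a c → (T ι k).Adj b c →
    (T ι k).Adj a d → (T ι k).Adj b d → a = b ∨ c = d
  | 0, _, _, _, _, h, _, _, _ => ((sh_adj.1 h).elim id id).elim
  | k + 1, a, b, c, d, h1, h2, h3, h4 => by
    have ti : ∀ {x y : P ι k}, top k x = top k y → x = y := fun h => sh_top_inj k h
    rcases sh_cases a with ⟨a, rfl⟩ | ⟨a, rfl⟩ | ⟨a, rfl⟩ <;>
    rcases sh_cases b with ⟨b, rfl⟩ | ⟨b, rfl⟩ | ⟨b, rfl⟩ <;>
    rcases sh_cases c with ⟨c, rfl⟩ | ⟨c, rfl⟩ | ⟨c, rfl⟩ <;>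
    rcases sh_cases d with ⟨d, rfl⟩ | ⟨d, rfl⟩ | ⟨d, rfl⟩ <;>
    simp only [sh_LL, sh_RR, sh_LR, sh_RL, sh_TT, sh_TL, sh_TR, sh_LT, sh_RT] at h1 h2 h3 h4 <;>
    first
      | exact (sh_common k a b c d h1 h2 h3 h4).imp (congrArg _) (congrArg _)
      | exact Or.inl (congrArg _ (h1.trans h2.symm))
      | exact Or.inl (congrArg _ (h3.trans h4.symm))
      | exact Or.inr (congrArg _ (h1.trans h3.symm))
      | exact Or.inr (congrArg _ (h2.trans h4.symm))
      | exact Or.inr (congrArg _ (Prod.ext (ti (h1.symm.trans h3)) (ti (h2.symm.trans h4))))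
      | exact Or.inr (congrArg _ (Prod.ext (ti (h2.symm.trans h4)) (ti (h1.symm.trans h3))))
      | exact Or.inl (congrArg _ (Prod.ext (ti (h1.symm.trans h2)) (ti (h3.symm.trans h4))))
      | exact Or.inl (congrArg _ (Prod.ext (ti (h3.symm.trans h4)) (ti (h1.symm.trans h2))))

lemma sh_six {a : W ι k} (w : (T ι k).Walk a a) (h : w.IsCycle) : 6 ≤ w.length := by
  have h3 := h.three_le_length
  have h2 := ((shCol ι k).even_length_iff_congr w).2 Iff.rfl
  have h4 : w.length ≠ 4 := by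
    intro e
    match w, h, e with
    | .cons h1 (.cons h2 (.cons h3 (.cons h4 .nil))), h, _ =>
      have := h.support_nodup
      simp only [Walk.support_cons, Walk.support_nil, List.tail_cons, List.nodup_cons,
        List.mem_cons, not_or] at this
      rcases sh_common k _ _ _ _ h1 h2.symm h4.symm h3 with e | e
      · exact this.2.1.2.1 e.symm
      · exact this.1.2.1 e
  obtain ⟨r, hr⟩ := h2
  omega

lemma sh_cyc [Nontrivial ι] :
    ∀ k, ∃ (a : W ι (k + 2)) (w : (T ι (k + 2)).Walk a a), w.IsCycle ∧ w.length = 6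
  | 0 => by
    obtain ⟨h, h', hh⟩ := exists_pair_ne ι
    have e1 : (T ι 2).Adj (shL (shL h)) (shL (shT (h, h))) := sh_LL.2 (sh_LT.2 rfl)
    have e2 : (T ι 2).Adj (shL (shT (h, h))) (shT ((h, h), (h, h))) := sh_LT.2 rfl
    have e3 : (T ι 2).Adj (shT ((h, h), (h, h))) (shR (shT (h, h))) := sh_TR.2 rfl
    have e4 : (T ι 2).Adj (shR (shT (h, h))) (shT ((h, h'), (h, h))) := sh_RT.2 rfl
    have e5 : (T ι 2).Adj (shT ((h, h'), (h, h))) (shL (shT (h, h'))) := sh_TL.2 rfl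
    have e6 : (T ι 2).Adj (shL (shT (h, h'))) (shL (shL h)) := sh_LL.2 (sh_TL.2 rfl)
    refine ⟨_, .cons e1 (.cons e2 (.cons e3 (.cons e4 (.cons e5 (.cons e6 .nil))))), ?_, rfl⟩
    have n1 : ∀ (x y : W ι 1), shL x ≠ shR y := fun _ _ e => by cases e
    have n2 : ∀ (x : W ι 1) i, shL x ≠ shT i := fun _ _ e => by cases e
    have n3 : ∀ (x : W ι 1) i, shR x ≠ shT i := fun _ _ e => by cases e
    have n4 : ∀ (x : W ι 0) i, shL x ≠ shT i := fun _ _ e => by cases e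
    have n5 : ((h, h) : P ι 0 × P ι 0) ≠ (h, h') := fun e => hh (congrArg Prod.snd e)
    have n6 : (((h, h), (h, h)) : P ι 1 × P ι 1) ≠ ((h, h'), (h, h)) :=
      fun e => n5 (congrArg Prod.fst e)
    rw [Walk.cons_isCycle_iff, Walk.isPath_def]
    simp only [Walk.support_cons, Walk.support_nil, List.nodup_cons, List.mem_cons, not_or,
      Walk.edges_cons, Walk.edges_nil, Sym2.eq_iff, shL_inj.eq_iff, shT_inj.eq_iff, n1, n2, n3,
      (n1 _ _).symm, (n2 _ _).symm, (n3 _ _).symm, List.not_mem_nil, List.nodup_nil,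
      not_false_eq_true, and_self, false_and, and_false, or_self, true_and, and_true]
    exact ⟨⟨⟨n5, (n4 _ _).symm⟩, n6, (n4 _ _).symm⟩, fun e => n4 _ _ e.1, n5⟩
  | k + 1 => by
    obtain ⟨a, w, h, e⟩ := sh_cyc k
    exact ⟨_, w.map (shLh ι (k + 2)), (Walk.isCycle_map_iff_of_injective shL_inj).2 h,
      by rw [Walk.length_map, e]⟩

theorem T_girth [Nontrivial ι] (k : ℕ) : (T ι (k + 2)).girth = 6 := by
  obtain ⟨a, w, h, e⟩ := sh_cyc (ι := ι) k
  obtain ⟨b, v, hv, ev⟩ := exists_girth_eq_length.2 fun g : (T ι (k + 2)).IsAcyclic => g w h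
  exact le_antisymm (e ▸ girth_le_length h) (ev ▸ sh_six v hv)

end Pool.Agent.Lib.MP_befe0b_co.CT
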