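import Pool.Agent.Lib.MP_befe0b_co.CT.Defs

/-!
Binary trees in a graph without four-cycles are determined by their leaves.
-/

namespace Pool.Agent.Lib.MP_befe0b_co.CT

open Finset

variable {V : Type} {G : SimpleGraph V}

/-- two different vertices have at most one common neighbour -/
def Lin (G : SimpleGraph V) : Prop :=
  ∀ a b y y', a ≠ b → G.Adj y a → G.Adj y b → G.Adj y' a → G.Adj y' b → y = y'

/-- `s` is the family of leaves of a binary tree with root `y` whose children differ from `p` -/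
def S (G : SimpleGraph V) : ∀ k, V → V → P V k → Prop
  | 0, y, _, s => s = y
  | k + 1, y, p, s => ∃ c c', c ≠ c' ∧ G.Adj y c ∧ G.Adj y c' ∧ c ≠ p ∧ c' ≠ p ∧
      S G k c y s.1 ∧ S G k c' y s.2

lemma S_det (h : Lin G) : ∀ (k : ℕ) {y p y' p' : V} {s : P V k},
    S G k y p s → S G k y' p' s → y = y'
  | 0, _, _, _, _, _, a, b => Eq.trans (Eq.symm a) b
  | k + 1, _, _, _, _, _, ⟨c, c', h1, h2, h3, _, _, h6, h7⟩, ⟨e, e', _, g2, g3, _, _, g6, g7⟩ => by
    obtain rfl := S_det h k h6 g6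
    obtain rfl := S_det h k h7 g7
    exact h _ _ _ _ h1 h2 h3 g2 g3

/-- the leaves belong to a tree -/
def Ok (G : SimpleGraph V) (k : ℕ) (s : P V k) : Prop := ∃ y p, S G k y p s

/-- the leaves belong to a tree hanging at `y` -/
def U (G : SimpleGraph V) (k : ℕ) (y : V) (s : P V k) : Prop := ∃ c, G.Adj y c ∧ S G k c y s

section val
variable [Nonempty V]

/-- the root of the tree -/
noncomputable def val (G : SimpleGraph V) (k : ℕ) (s : P V k) : V :=
  Classical.epsilon fun y => ∃ p, S G k y p s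

/-- a common neighbour -/
noncomputable def nx (G : SimpleGraph V) (a b : V) : V :=
  Classical.epsilon fun c => G.Adj c a ∧ G.Adj c b

lemma val_eq (h : Lin G) {k : ℕ} {y p : V} {s : P V k} (a : S G k y p s) : val G k s = y := by
  obtain ⟨q, b⟩ := Classical.epsilon_spec (p := fun y => ∃ p, S G k y p s) ⟨y, p, a⟩
  exact S_det h k b a

lemma nx_eq (h : Lin G) {a b c : V} (hab : a ≠ b) (h1 : G.Adj c a) (h2 : G.Adj c b) :
    nx G a b = c := by
  obtain ⟨g1, g2⟩ := Classical.epsilon_spec (p := fun c => G.Adj c a ∧ G.Adj c b) ⟨c, h1, h2⟩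
  exact h _ _ _ _ hab g1 g2 h1 h2

lemma U_step (h : Lin G) {k : ℕ} {y : V} {s : P V k × P V k} (a : U G (k + 1) y s) :
    U G k (nx G y (val G k s.2)) s.1 ∧ U G k (nx G y (val G k s.1)) s.2 := by
  obtain ⟨c, hc, c1, c2, -, h2, h3, h4, h5, h6, h7⟩ := a
  rw [val_eq h h6, val_eq h h7, nx_eq h h5.symm hc.symm h3, nx_eq h h4.symm hc.symm h2]
  exact ⟨⟨c1, h2, h6⟩, ⟨c2, h3, h7⟩⟩

lemma Ok_step (h : Lin G) {k : ℕ} {s : P V k × P V k} (a : Ok G (k + 1) s) :
    U G k (val G (k + 1) s) s.1 ∧ U G k (val G (k + 1) s) s.2 := by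
  obtain ⟨y, p, a⟩ := a
  rw [val_eq h a]
  obtain ⟨c1, c2, -, h2, h3, -, -, h6, h7⟩ := a
  exact ⟨⟨c1, h2, h6⟩, ⟨c2, h3, h7⟩⟩

lemma U_adj (h : Lin G) {k : ℕ} {y : V} {s : P V k} (a : U G k y s) : G.Adj y (val G k s) := by
  obtain ⟨c, hc, a⟩ := a
  rwa [val_eq h a]

end val

/-- exponents -/
def ee : ℕ → ℕ
  | 0 => 0
  | k + 1 => 2 * ee k + 1

lemma ee_succ : ∀ k, ee k + 1 = 2 ^ k
  | 0 => rfl
  | k + 1 => by rw [pow_succ, ← ee_succ k, ee]; ring

variable [Fintype V]

open Classical in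
/-- the leaf families as a finite set -/
noncomputable def SF (G : SimpleGraph V) (k : ℕ) (y p : V) : Finset (P V k) :=
  univ.filter (S G k y p)

lemma mem_SF {k : ℕ} {y p : V} {s : P V k} : s ∈ SF G k y p ↔ S G k y p s := by simp [SF]

lemma S_card [DecidableRel G.Adj] (h : Lin G) {x : ℕ} (hd : ∀ y, x + 2 ≤ G.degree y) :
    ∀ (k : ℕ) (y p : V), x ^ (2 * ee k) ≤ (SF G k y p).card
  | 0, y, p => by
    rw [ee, mul_zero, pow_zero]
    exact card_pos.2 ⟨y, mem_SF.2 rfl⟩
  | k + 1, y, p => by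
    classical
    have a1 : x + 1 ≤ ((G.neighborFinset y).erase p).card := by
      have := pred_card_le_card_erase (s := G.neighborFinset y) (a := p)
      have := hd y
      rw [SimpleGraph.card_neighborFinset_eq_degree] at *
      omega
    set A := (G.neighborFinset y).erase p with hA
    have a2 : x ^ 2 ≤ A.offDiag.card := by
      rw [offDiag_card]
      obtain ⟨m, hm⟩ := Nat.exists_eq_add_of_le a1
      rw [hm]
      apply Nat.le_sub_of_add_le
      nlinarith [Nat.zero_le (m * m), Nat.zero_le (x * m)]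
    have a3 : (A.offDiag.biUnion fun q => SF G k q.1 y ×ˢ SF G k q.2 y).card ≤
        (SF G (k + 1) y p).card := by
      refine card_le_card fun s hs => ?_
      obtain ⟨q, hq, hs⟩ := mem_biUnion.1 hs
      obtain ⟨q1, q2, q3⟩ := mem_offDiag.1 hq
      obtain ⟨s1, s2⟩ := mem_product.1 hs
      exact (mem_SF (k := k + 1)).2 ⟨q.1, q.2, q3,
        (G.mem_neighborFinset _ _).1 (mem_erase.1 q1).2,
        (G.mem_neighborFinset _ _).1 (mem_erase.1 q2).2, (mem_erase.1 q1).1, (mem_erase.1 q2).1,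
        mem_SF.1 s1, mem_SF.1 s2⟩
    rw [card_biUnion] at a3
    · refine le_trans ?_ a3
      refine le_trans ?_ (card_nsmul_le_sum _ _ (x ^ (2 * ee k) * x ^ (2 * ee k)) fun q _ => ?_)
      · rw [smul_eq_mul]
        refine le_trans (le_of_eq ?_) (Nat.mul_le_mul_right _ a2)
        rw [ee]; ring
      · rw [card_product]
        exact Nat.mul_le_mul (S_card h hd k _ _) (S_card h hd k _ _)
    · intro q _ q' _ hne
      refine disjoint_left.2 fun s hs hs' => hne ?_
      obtain ⟨s1, s2⟩ := mem_product.1 hs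
      obtain ⟨s3, s4⟩ := mem_product.1 hs'
      exact Prod.ext (S_det h k (mem_SF.1 s1) (mem_SF.1 s3))
        (S_det h k (mem_SF.1 s2) (mem_SF.1 s4))

lemma Ok_pr [DecidableRel G.Adj] [Nonempty V] (h : Lin G) {x : ℕ}
    (hd : ∀ y, x + 2 ≤ G.degree y) (k : ℕ) :
    ((x : ℝ) ^ 2 / Fintype.card V) ^ ee k ≤ pr (Ok G k) := by
  classical
  have a1 : (univ.biUnion fun y => SF G k y y).card ≤ (univ.filter (Ok G k)).card := by
    refine card_le_card fun s hs => ?_
    obtain ⟨y, -, hs⟩ := mem_biUnion.1 hs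
    exact mem_filter.2 ⟨mem_univ _, y, y, mem_SF.1 hs⟩
  have dj : ((univ : Finset V) : Set V).PairwiseDisjoint fun y => SF G k y y :=
    fun y _ y' _ hne => disjoint_left.2 fun s hs hs' =>
      hne (S_det h k (mem_SF.1 hs) (mem_SF.1 hs'))
  rw [card_biUnion dj] at a1
  have a2 := (card_nsmul_le_sum univ _ (x ^ (2 * ee k)) fun y _ => S_card h hd k y y).trans a1
  rw [smul_eq_mul, card_univ] at a2
  have c : (0 : ℝ) < Fintype.card V := by exact_mod_cast Fintype.card_pos
  rw [pr_eq, P.card, ← ee_succ, div_pow, ← pow_mul, div_le_div_iff₀ (by positivity) (by positivity)]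
  have a3 : (Fintype.card V : ℝ) * (x : ℝ) ^ (2 * ee k) ≤ (univ.filter (Ok G k)).card := by
    exact_mod_cast a2
  push_cast
  rw [pow_succ]
  nlinarith [mul_le_mul_of_nonneg_right a3 (pow_nonneg c.le (ee k))]

lemma deg_le [DecidableRel G.Adj] (h : Lin G) {x : ℕ} (hd : ∀ y, x + 2 ≤ G.degree y) (y : V) :
    G.degree y * (x + 1) ≤ Fintype.card V := by
  classical
  have a1 : ((G.neighborFinset y).biUnion fun u => (G.neighborFinset u).erase y).card ≤
      Fintype.card V := card_le_univ _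
  rw [card_biUnion] at a1
  · refine le_trans ?_ a1
    rw [← SimpleGraph.card_neighborFinset_eq_degree, ← smul_eq_mul]
    refine card_nsmul_le_sum _ _ _ fun u _ => ?_
    have := pred_card_le_card_erase (s := G.neighborFinset u) (a := y)
    have := hd u
    rw [SimpleGraph.card_neighborFinset_eq_degree] at *
    omega
  · intro u hu u' hu' hne
    refine disjoint_left.2 fun w hw hw' => hne ?_
    exact h y w u u' (mem_erase.1 hw).1.symm ((G.mem_neighborFinset _ _).1 hu).symm
      ((G.mem_neighborFinset _ _).1 (mem_erase.1 hw).2) ((G.mem_neighborFinset _ _).1 hu').symm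
      ((G.mem_neighborFinset _ _).1 (mem_erase.1 hw').2)

end Pool.Agent.Lib.MP_befe0b_co.CT
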