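import Pool.Agent.Lib.MP_befe0b_co.CT.Box

/-!
The upper bound for the pair.
-/

namespace Pool.Agent.Lib.MP_befe0b_co.CT

open Finset SimpleGraph

lemma lin_of_free {V : Type} {G : SimpleGraph V} (h : (cycleGraph 4).Free G) : Lin G := by
  intro a b y y' hab h1 h2 h3 h4
  by_contra hy
  refine h ⟨⟨⟨![y, a, y', b], ?_⟩, ?_⟩⟩
  · intro i j hij
    fin_cases i <;> fin_cases j <;>
      first
        | exact absurd hij (by decide)
        | exact h1 | exact h2 | exact h3 | exact h4
        | exact h1.symm | exact h2.symm | exact h3.symm | exact h4.symm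
  · have a1 := h1.ne
    have a2 := h2.ne
    have a3 := h3.ne
    have a4 := h4.ne
    intro i j hij
    fin_cases i <;> fin_cases j <;>
      first
        | rfl
        | exact absurd hij a1 | exact absurd hij a2 | exact absurd hij a3 | exact absurd hij a4
        | exact absurd hij hab | exact absurd hij hy
        | exact absurd hij.symm a1 | exact absurd hij.symm a2 | exact absurd hij.symm a3
        | exact absurd hij.symm a4 | exact absurd hij.symm hab | exact absurd hij.symm hy

variable {ι : Type} [Fintype ι] [Nonempty ι]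

lemma core {V : Type} [Fintype V] [Nonempty V] {G : SimpleGraph V} [DecidableRel G.Adj]
    (h : Lin G) {k : ℕ} (hT : (T ι k).Free G) {x : ℕ} (hd : ∀ y, x + 2 ≤ G.degree y) :
    (x : ℝ) ^ (2 * (ee k * Fintype.card (P ι k)) + 1) ≤
      (Fintype.card (W ι k) : ℝ) ^ 2 * (Fintype.card V : ℝ) ^ (ee k * Fintype.card (P ι k)) := by
  classical
  have c : (0 : ℝ) < Fintype.card V := by exact_mod_cast Fintype.card_pos
  have ht : ∀ y, pr (G.Adj y) ≤ 1 / ((x : ℝ) + 1) := fun y => by
    have := deg_le h hd y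
    rw [pr_eq, ← neighborFinset_eq_filter, card_neighborFinset_eq_degree,
      div_le_div_iff₀ c (by positivity), one_mul]
    exact_mod_cast this
  have h1 : ∀ y, ∃ z, G.Adj z y := fun y => by
    obtain ⟨z, hz⟩ := (G.degree_pos_iff_exists_adj y).1 (by have := hd y; omega)
    exact ⟨z, hz.symm⟩
  have a1 : pr (Valid (ι := ι) G k) ≤ ∑ q ∈ (univ : Finset (W ι k)).offDiag,
      pr (fun F => Valid G k F ∧ ph G k F q.1 = ph G k F q.2) := by
    refine le_trans (pr_mono fun F hF => ?_) (pr_union _ _)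
    by_contra hc
    refine hT ⟨⟨⟨ph G k F, ?_⟩, fun a b e => ?_⟩⟩
    · rintro a b ⟨-, e | e⟩
      · exact ph_adj h k F hF a b e
      · exact (ph_adj h k F hF b a e).symm
    · by_contra hab
      exact hc ⟨(a, b), mem_offDiag.2 ⟨mem_univ _, mem_univ _, hab⟩, hF, e⟩
  have a2 : ∑ q ∈ (univ : Finset (W ι k)).offDiag,
      pr (fun F => Valid G k F ∧ ph G k F q.1 = ph G k F q.2) ≤
      (Fintype.card (W ι k) : ℝ) ^ 2 * (1 / ((x : ℝ) + 1)) := by
    refine (sum_le_card_nsmul _ _ _ fun q hq => coll h ht h1 k _ _ (mem_offDiag.1 hq).2.2).trans ?_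
    rw [nsmul_eq_mul]
    refine mul_le_mul_of_nonneg_right ?_ (by positivity)
    rw [offDiag_card, card_univ, sq]
    exact_mod_cast Nat.sub_le _ _
  have a3 := (pow_le_pow_left₀ (by positivity) (Ok_pr h hd k) (Fintype.card (P ι k))).trans
    ((valid_ge k).trans (a1.trans a2))
  rw [← pow_mul, div_pow, ← pow_mul, mul_one_div,
    div_le_div_iff₀ (by positivity) (by positivity)] at a3
  refine le_trans ?_ a3
  rw [pow_succ]
  exact mul_le_mul_of_nonneg_left (by linarith) (by positivity)

lemma peel {k : ℕ} {D : ℝ} {n : ℕ}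
    (hD : ∀ x : ℕ, (x : ℝ) ^ (2 * (ee k * Fintype.card (P ι k)) + 1) ≤
      (Fintype.card (W ι k) : ℝ) ^ 2 * (n : ℝ) ^ (ee k * Fintype.card (P ι k)) →
      (x : ℝ) + 2 ≤ D) :
    ∀ (m : ℕ), m ≤ n → ∀ (V : Type) [Fintype V] (G : SimpleGraph V) [DecidableRel G.Adj],
      Fintype.card V = m → (cycleGraph 4).Free G → (T ι k).Free G →
      (G.edgeFinset.card : ℝ) ≤ D * m := by
  classical
  intro m
  induction m with
  | zero =>
    intro _ V _ G _ hV _ _
    have := G.card_edgeFinset_le_card_choose_two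
    rw [hV] at this
    simp only [Nat.cast_zero, mul_zero]
    exact_mod_cast this
  | succ m ih =>
    intro hm V _ G _ hV h4 hT
    have : Nonempty V := Fintype.card_pos_iff.1 (by omega)
    obtain ⟨v, hv⟩ : ∃ v, (G.degree v : ℝ) ≤ D := by
      obtain ⟨v, hv⟩ := G.exists_minimal_degree_vertex
      refine ⟨v, ?_⟩
      have b0 := hD 0 (by rw [Nat.cast_zero, pow_succ, mul_zero]; positivity)
      by_cases h2 : G.degree v ≤ 2
      · have : (G.degree v : ℝ) ≤ 2 := by exact_mod_cast h2
        simp only [Nat.cast_zero] at b0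
        linarith
      · obtain ⟨x, hx⟩ : ∃ x, G.degree v = x + 2 := ⟨G.degree v - 2, by omega⟩
        have b1 := core (lin_of_free h4) hT (x := x) fun y => by
          rw [← hx, ← hv]; exact G.minDegree_le_degree y
        have b2 := hD x (b1.trans (mul_le_mul_of_nonneg_left
          (pow_le_pow_left₀ (by positivity) (by rw [hV]; exact_mod_cast hm) _) (by positivity)))
        rw [hx]
        exact_mod_cast b2
    have e : G.induce ({v}ᶜ : Set V) ⊑ G := ⟨(Embedding.induce _).toCopy⟩
    have b := ih (by omega) ({v}ᶜ : Set V) (G.induce {v}ᶜ)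
      (by rw [Fintype.card_compl_set, hV]; simp) (fun a => h4 (a.trans e)) fun a => hT (a.trans e)
    rw [card_edgeFinset_induce_compl_singleton, card_edgeFinset_deleteIncidenceSet] at b
    have b3 : (G.edgeFinset.card : ℝ) ≤ ((G.edgeFinset.card - G.degree v : ℕ) : ℝ) + G.degree v := by
      exact_mod_cast (by omega : G.edgeFinset.card ≤ G.edgeFinset.card - G.degree v + G.degree v)
    push_cast
    linarith

theorem upper (ι : Type) [Fintype ι] [Nonempty ι] (k : ℕ) : ∃ ε C : ℝ, 0 < ε ∧ 0 < C ∧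
    ∀ (n : ℕ) (G : SimpleGraph (Fin n)) [DecidableRel G.Adj],
      (cycleGraph 4).Free G → (T ι k).Free G →
      (G.edgeFinset.card : ℝ) ≤ C * (n : ℝ) ^ (3 / 2 - ε) := by
  set s := ee k * Fintype.card (P ι k) with hs
  set w : ℝ := (Fintype.card (W ι k) : ℝ) with hw
  have s0 : (0 : ℝ) < 2 * s + 1 := by positivity
  refine ⟨1 / (2 * (2 * s + 1)), w ^ 2 + 3, by positivity, by positivity, fun n G _ h4 hT => ?_⟩
  rcases Nat.eq_zero_or_pos n with rfl | hn
  · have := G.card_edgeFinset_le_card_choose_two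
    simp only [Fintype.card_fin, Nat.choose_zero_succ, Nat.le_zero] at this
    rw [this, Nat.cast_zero]
    positivity
  have n1 : (1 : ℝ) ≤ n := by exact_mod_cast hn
  have a0 : 1 ≤ (n : ℝ) ^ ((s : ℝ) / (2 * s + 1)) := Real.one_le_rpow n1 (by positivity)
  have a := peel (ι := ι) (k := k) (D := (w ^ 2 + 3) * (n : ℝ) ^ ((s : ℝ) / (2 * s + 1))) (n := n)
    (fun x hx => ?_) n le_rfl (Fin n) G (Fintype.card_fin n) h4 hT
  · refine a.trans (le_of_eq ?_)
    rw [mul_assoc, ← Real.rpow_add_one (by positivity)]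
    congr 2
    field_simp
    ring
  · have a1 : (x : ℝ) ≤ (w ^ 2 + 1) * (n : ℝ) ^ ((s : ℝ) / (2 * s + 1)) := by
      refine le_of_pow_le_pow_left₀ (n := 2 * s + 1) (by omega) (by positivity) (hx.trans ?_)
      rw [mul_pow, ← Real.rpow_natCast (_ ^ _) (2 * s + 1), ← Real.rpow_mul (by positivity)]
      push_cast
      rw [div_mul_cancel₀ _ s0.ne', Real.rpow_natCast]
      refine mul_le_mul_of_nonneg_right ?_ (by positivity)
      exact le_trans (by linarith) (le_self_pow₀ (by nlinarith [sq_nonneg w]) (by omega))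
    nlinarith

end Pool.Agent.Lib.MP_befe0b_co.CT
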